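import Pool.Agent.U260.GZ.Stm

set_option autoImplicit false

/-! Project GDZ, package SUM: the sum over all pairs off the diagonal. -/

namespace Pool.Agent.U354.GZS

open Complex Filter Topology MeasureTheory Set
open Pool.Agent.N879.GD
open Pool.Agent.Y969.GP (PS)

noncomputable section

/-- the length of a block -/
def LL (X m j : ℕ) : ℕ := min (2 ^ j) (X / m + 1 - (m + 2 ^ j))

lemma lt_LL {X m j r : ℕ} (hm : 1 ≤ m) :
    r < LL X m j ↔ r < 2 ^ j ∧ m * (m + 2 ^ j + r) ≤ X := by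
  unfold LL
  rw [lt_min_iff]
  have h : r < X / m + 1 - (m + 2 ^ j) ↔ m + 2 ^ j + r ≤ X / m := by omega
  rw [h, Nat.le_div_iff_mul_le (by omega), mul_comm]

lemma mem_PS {X : ℕ} {p : ℕ × ℕ} :
    p ∈ PS X ↔ (1 ≤ p.1 ∧ p.1 ≤ X) ∧ (1 ≤ p.2 ∧ p.2 ≤ X) ∧ p.1 * p.2 ≤ X := by
  unfold PS
  rw [Finset.mem_filter, Finset.mem_product, Finset.mem_Icc, Finset.mem_Icc, and_assoc]

lemma sum_blocks (X : ℕ) (f : ℕ → ℕ → ℂ) :
    ∑ p ∈ (PS X).filter (fun p => p.1 < p.2), f p.1 p.2 =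
      ∑ q ∈ Finset.Icc 1 X ×ˢ Finset.range (Nat.log 2 X + 1),
        ∑ r ∈ Finset.range (LL X q.1 q.2), f q.1 (q.1 + 2 ^ q.2 + r) := by
  rw [Finset.sum_sigma']
  refine Finset.sum_nbij'
    (fun p => (⟨(p.1, Nat.log 2 (p.2 - p.1)), p.2 - p.1 - 2 ^ Nat.log 2 (p.2 - p.1)⟩ :
      Sigma fun _ : ℕ × ℕ => ℕ))
    (fun x => (x.1.1, x.1.1 + 2 ^ x.1.2 + x.2)) ?_ ?_ ?_ ?_ ?_
  · rintro ⟨m, n⟩ hp
    rw [Finset.mem_filter, mem_PS] at hp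
    obtain ⟨⟨⟨h1, h2⟩, ⟨h3, h4⟩, h5⟩, h6⟩ := hp
    dsimp only at h1 h2 h3 h4 h5 h6
    have e1 : 2 ^ Nat.log 2 (n - m) ≤ n - m := Nat.pow_log_le_self 2 (by omega)
    have e2 : n - m < 2 ^ (Nat.log 2 (n - m) + 1) := Nat.lt_pow_succ_log_self (by norm_num) _
    rw [pow_succ] at e2
    rw [Finset.mem_sigma, Finset.mem_product, Finset.mem_Icc, Finset.mem_range, Finset.mem_range]
    refine ⟨⟨⟨h1, h2⟩, ?_⟩, ?_⟩
    · have e3 : Nat.log 2 (n - m) ≤ Nat.log 2 X := Nat.log_mono_right (by omega)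
      dsimp only
      omega
    · dsimp only
      rw [lt_LL h1]
      refine ⟨by omega, ?_⟩
      rw [show m + 2 ^ Nat.log 2 (n - m) + (n - m - 2 ^ Nat.log 2 (n - m)) = n by omega]
      exact h5
  · rintro ⟨⟨m, j⟩, r⟩ hx
    rw [Finset.mem_sigma, Finset.mem_product, Finset.mem_Icc, Finset.mem_range,
      Finset.mem_range] at hx
    dsimp only at hx
    obtain ⟨⟨⟨h1, h2⟩, h3⟩, h4⟩ := hx
    rw [lt_LL h1] at h4
    rw [Finset.mem_filter, mem_PS]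
    dsimp only
    have h0 : 0 < 2 ^ j := by positivity
    refine ⟨⟨⟨h1, h2⟩, ⟨by omega, ?_⟩, h4.2⟩, by omega⟩
    exact le_trans (Nat.le_mul_of_pos_left _ (by omega)) h4.2
  · rintro ⟨m, n⟩ hp
    rw [Finset.mem_filter, mem_PS] at hp
    obtain ⟨⟨⟨h1, h2⟩, ⟨h3, h4⟩, h5⟩, h6⟩ := hp
    dsimp only at h1 h2 h3 h4 h5 h6
    have e1 : 2 ^ Nat.log 2 (n - m) ≤ n - m := Nat.pow_log_le_self 2 (by omega)
    dsimp only
    rw [show m + 2 ^ Nat.log 2 (n - m) + (n - m - 2 ^ Nat.log 2 (n - m)) = n by omega]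
  · rintro ⟨⟨m, j⟩, r⟩ hx
    rw [Finset.mem_sigma, Finset.mem_product, Finset.mem_Icc, Finset.mem_range,
      Finset.mem_range] at hx
    dsimp only at hx
    obtain ⟨⟨⟨h1, h2⟩, h3⟩, h4⟩ := hx
    rw [lt_LL h1] at h4
    dsimp only
    have e : Nat.log 2 (m + 2 ^ j + r - m) = j := by
      rw [show m + 2 ^ j + r - m = 2 ^ j + r by omega]
      exact Nat.log_eq_of_pow_le_of_lt_pow (by omega) (by rw [pow_succ]; omega)
    rw [e, show m + 2 ^ j + r - m - 2 ^ j = r by omega]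
  · rintro ⟨m, n⟩ hp
    rw [Finset.mem_filter, mem_PS] at hp
    obtain ⟨⟨⟨h1, h2⟩, ⟨h3, h4⟩, h5⟩, h6⟩ := hp
    dsimp only at h1 h2 h3 h4 h5 h6
    have e1 : 2 ^ Nat.log 2 (n - m) ≤ n - m := Nat.pow_log_le_self 2 (by omega)
    dsimp only
    rw [show m + 2 ^ Nat.log 2 (n - m) + (n - m - 2 ^ Nat.log 2 (n - m)) = n by omega]

lemma GG_neg (b : ℕ) (T x ω : ℝ) : GG b T (-x) ω = (starRingEnd ℂ) (GG b T x (-ω)) := by
  unfold GG
  rw [← integral_conj]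
  refine integral_congr_ae (Filter.Eventually.of_forall fun u => ?_)
  simp only [map_mul, conj_ofReal, ← exp_conj, conj_I]
  congr 2
  push_cast
  ring

lemma bt_swap (σ : ℝ) (b : ℕ) (T y ω : ℝ) (m n : ℕ) :
    bt σ b T y ω n m = (starRingEnd ℂ) (bt σ b T (-y) (-ω) m n) := by
  unfold bt
  rw [show Real.log m - Real.log n = -(Real.log n - Real.log m) by ring, GG_neg]
  simp only [map_mul, conj_ofReal, ← exp_conj, map_neg, map_add, conj_I]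
  rw [mul_comm (n : ℝ) m]
  congr 3
  push_cast
  ring

lemma sum_inv_sqrt (M : ℕ) : ∑ m ∈ Finset.Icc 1 M, (√(m : ℝ))⁻¹ ≤ 2 * √(M : ℝ) := by
  induction M with
  | zero => simp
  | succ M ih =>
    rw [Finset.sum_Icc_succ_top (by omega)]
    have hb : 0 < √((M + 1 : ℕ) : ℝ) := Real.sqrt_pos.2 (by positivity)
    have ha : 0 ≤ √(M : ℝ) := Real.sqrt_nonneg _
    have e1 : √((M + 1 : ℕ) : ℝ) ^ 2 = M + 1 := by
      rw [Real.sq_sqrt (by positivity)]; push_cast; ring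
    have e2 : √(M : ℝ) ^ 2 = M := Real.sq_sqrt (by positivity)
    have e3 : √(M : ℝ) ≤ √((M + 1 : ℕ) : ℝ) := Real.sqrt_le_sqrt (by push_cast; linarith)
    have : (√((M + 1 : ℕ) : ℝ))⁻¹ ≤ 2 * (√((M + 1 : ℕ) : ℝ) - √(M : ℝ)) := by
      rw [inv_le_iff_one_le_mul₀ hb]
      nlinarith
    linarith

lemma sum_inv_sqrt' (S : Finset ℕ) (Y : ℝ) (hY : 0 ≤ Y) (h : ∀ m ∈ S, 1 ≤ m ∧ (m : ℝ) ≤ Y) :
    ∑ m ∈ S, (√(m : ℝ))⁻¹ ≤ 2 * √Y := by
  calc ∑ m ∈ S, (√(m : ℝ))⁻¹ ≤ ∑ m ∈ Finset.Icc 1 ⌊Y⌋₊, (√(m : ℝ))⁻¹ :=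
        Finset.sum_le_sum_of_subset_of_nonneg
          (fun m hm => Finset.mem_Icc.2 ⟨(h m hm).1, Nat.le_floor (h m hm).2⟩)
          (fun _ _ _ => by positivity)
    _ ≤ 2 * √(⌊Y⌋₊ : ℝ) := sum_inv_sqrt _
    _ ≤ 2 * √Y := by
        gcongr
        exact Nat.floor_le hY

/-- the bounds of the blocks -/
def bd (δ T : ℝ) (m j : ℕ) : ℝ :=
  √(((2 ^ j : ℕ) : ℝ) / m) * (if T ^ (1 / 4 : ℝ) ≤ ((2 ^ j : ℕ) : ℝ) then T ^ (-δ) else 1)

lemma bd_nonneg (δ T : ℝ) (hT : 0 ≤ T) (m j : ℕ) : 0 ≤ bd δ T m j := by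
  unfold bd
  have : 0 ≤ T ^ (-δ) := Real.rpow_nonneg hT _
  split_ifs <;> positivity

lemma sum_bd (δ T : ℝ) (hT : 0 < T) (X j : ℕ) :
    ∑ m ∈ (Finset.Icc 1 X).filter (fun m => m * (m + 2 ^ j) ≤ X), bd δ T m j ≤
      2 * (√(T ^ (1 / 4 : ℝ)) * √(√(X : ℝ)) + √(X : ℝ) * T ^ (-δ)) := by
  set S := (Finset.Icc 1 X).filter (fun m => m * (m + 2 ^ j) ≤ X) with hS
  have h2 : (0 : ℝ) < ((2 ^ j : ℕ) : ℝ) := by positivity
  have hTd : 0 < T ^ (-δ) := Real.rpow_pos_of_pos hT _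
  have hT4 : 0 < T ^ (1 / 4 : ℝ) := Real.rpow_pos_of_pos hT _
  have e0 : ∑ m ∈ S, bd δ T m j = √((2 ^ j : ℕ) : ℝ) * (∑ m ∈ S, (√(m : ℝ))⁻¹) *
      (if T ^ (1 / 4 : ℝ) ≤ ((2 ^ j : ℕ) : ℝ) then T ^ (-δ) else 1) := by
    rw [Finset.mul_sum, Finset.sum_mul]
    refine Finset.sum_congr rfl fun m _ => ?_
    unfold bd
    rw [Real.sqrt_div (by positivity)]
    rfl
  have hmem : ∀ m ∈ S, 1 ≤ m ∧ m * (m + 2 ^ j) ≤ X := by
    intro m hm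
    rw [hS, Finset.mem_filter, Finset.mem_Icc] at hm
    exact ⟨hm.1.1, hm.2⟩
  rw [e0]
  split_ifs with hc
  · have e1 : ∑ m ∈ S, (√(m : ℝ))⁻¹ ≤ 2 * √((X : ℝ) / ((2 ^ j : ℕ) : ℝ)) := by
      refine sum_inv_sqrt' S _ (by positivity) fun m hm => ⟨(hmem m hm).1, ?_⟩
      rw [le_div_iff₀ h2]
      have := (hmem m hm).2
      have h3 : m * 2 ^ j ≤ X := le_trans (Nat.mul_le_mul_left m (by omega)) this
      exact_mod_cast h3
    have e2 : √((2 ^ j : ℕ) : ℝ) * √((X : ℝ) / ((2 ^ j : ℕ) : ℝ)) = √(X : ℝ) := by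
      rw [← Real.sqrt_mul h2.le]
      congr 1
      field_simp
    calc √((2 ^ j : ℕ) : ℝ) * (∑ m ∈ S, (√(m : ℝ))⁻¹) * T ^ (-δ)
        ≤ √((2 ^ j : ℕ) : ℝ) * (2 * √((X : ℝ) / ((2 ^ j : ℕ) : ℝ))) * T ^ (-δ) := by gcongr
      _ = 2 * (√((2 ^ j : ℕ) : ℝ) * √((X : ℝ) / ((2 ^ j : ℕ) : ℝ)) * T ^ (-δ)) := by ring
      _ = 2 * (√(X : ℝ) * T ^ (-δ)) := by rw [e2]
      _ ≤ _ := by
        have : 0 ≤ √(T ^ (1 / 4 : ℝ)) * √(√(X : ℝ)) := by positivity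
        linarith
  · push Not at hc
    have e1 : ∑ m ∈ S, (√(m : ℝ))⁻¹ ≤ 2 * √(√(X : ℝ)) := by
      refine sum_inv_sqrt' S _ (by positivity) fun m hm => ⟨(hmem m hm).1, ?_⟩
      refine Real.le_sqrt_of_sq_le ?_
      have := (hmem m hm).2
      have h3 : m * m ≤ X := le_trans (Nat.mul_le_mul_left m (Nat.le_add_right m _)) this
      rw [sq]
      exact_mod_cast h3
    have e2 : √((2 ^ j : ℕ) : ℝ) ≤ √(T ^ (1 / 4 : ℝ)) := Real.sqrt_le_sqrt hc.le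
    calc √((2 ^ j : ℕ) : ℝ) * (∑ m ∈ S, (√(m : ℝ))⁻¹) * 1
        ≤ √(T ^ (1 / 4 : ℝ)) * (2 * √(√(X : ℝ))) * 1 := by gcongr
      _ = 2 * (√(T ^ (1 / 4 : ℝ)) * √(√(X : ℝ))) := by ring
      _ ≤ _ := by
        have : 0 ≤ √(X : ℝ) * T ^ (-δ) := by positivity
        linarith

lemma num1 {δ T : ℝ} {X : ℕ} (hδ : 0 < δ) (hδ8 : δ ≤ 1 / 8) (hT : 32 ≤ T)
    (hX2 : (X : ℝ) ≤ 2 * T ^ (1 + δ / 4)) : (X : ℝ) ≤ T ^ (5 / 4 : ℝ) := by
  have hT1 : 1 ≤ T := by linarith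
  have hT0 : 0 < T := by linarith
  have h1 : (2 : ℝ) ≤ T ^ (1 / 5 : ℝ) := by
    have : (32 : ℝ) ^ (1 / 5 : ℝ) ≤ T ^ (1 / 5 : ℝ) :=
      Real.rpow_le_rpow (by norm_num) hT (by norm_num)
    have e : (32 : ℝ) ^ (1 / 5 : ℝ) = 2 := by
      rw [show (32 : ℝ) = 2 ^ (5 : ℝ) by norm_num, ← Real.rpow_mul (by norm_num)]
      norm_num
    linarith
  calc (X : ℝ) ≤ 2 * T ^ (1 + δ / 4) := hX2
    _ ≤ T ^ (1 / 5 : ℝ) * T ^ (1 + δ / 4) := by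
        have : 0 ≤ T ^ (1 + δ / 4) := Real.rpow_nonneg hT0.le _
        gcongr
    _ = T ^ (1 / 5 + (1 + δ / 4)) := (Real.rpow_add hT0 _ _).symm
    _ ≤ T ^ (5 / 4 : ℝ) := Real.rpow_le_rpow_of_exponent_le hT1 (by linarith)

lemma num2 {δ T : ℝ} {X : ℕ} (hδ : 0 < δ) (hT : 1 ≤ T) (hX1 : 1 ≤ X)
    (hX : (X : ℝ) ≤ T ^ (5 / 4 : ℝ)) :
    ((Nat.log 2 X + 1 : ℕ) : ℝ) ≤ (1 + 8 / δ) * T ^ (5 * δ / 16) := by
  have hT0 : 0 < T := by linarith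
  have hX0 : (0 : ℝ) < X := by exact_mod_cast hX1
  have h1 : (Nat.log 2 X : ℝ) * Real.log 2 ≤ Real.log X := by
    have := Nat.pow_log_le_self 2 (x := X) (by omega)
    have h2 : ((2 : ℝ) ^ Nat.log 2 X) ≤ X := by exact_mod_cast this
    have h3 := Real.log_le_log (by positivity) h2
    rwa [Real.log_pow] at h3
  have h2 : (1 / 2 : ℝ) ≤ Real.log 2 := by
    have := Real.log_two_gt_d9
    linarith
  have h3 : (Nat.log 2 X : ℝ) ≤ 2 * Real.log X := by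
    have : (0 : ℝ) ≤ Nat.log 2 X := by positivity
    nlinarith
  have h4 : Real.log X ≤ (X : ℝ) ^ (δ / 4) / (δ / 4) := Real.log_le_rpow_div hX0.le (by positivity)
  have h5 : (X : ℝ) ^ (δ / 4) ≤ T ^ (5 * δ / 16) := by
    calc (X : ℝ) ^ (δ / 4) ≤ (T ^ (5 / 4 : ℝ)) ^ (δ / 4) :=
          Real.rpow_le_rpow hX0.le hX (by positivity)
      _ = T ^ (5 * δ / 16) := by
          rw [← Real.rpow_mul hT0.le]
          congr 1
          ring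
  have h6 : 1 ≤ T ^ (5 * δ / 16) := Real.one_le_rpow hT (by positivity)
  have h7 : (X : ℝ) ^ (δ / 4) / (δ / 4) ≤ 4 / δ * T ^ (5 * δ / 16) := by
    rw [div_le_iff₀ (by positivity)]
    have : 4 / δ * T ^ (5 * δ / 16) * (δ / 4) = T ^ (5 * δ / 16) := by field_simp
    rw [this]; exact h5
  push_cast
  calc (Nat.log 2 X : ℝ) + 1 ≤ 2 * (4 / δ * T ^ (5 * δ / 16)) + T ^ (5 * δ / 16) := by linarith
    _ = (1 + 8 / δ) * T ^ (5 * δ / 16) := by ring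

lemma num3 {δ T : ℝ} {X : ℕ} (hδ : 0 < δ) (hδ8 : δ ≤ 1 / 8) (hT : 1 ≤ T)
    (hX2 : (X : ℝ) ≤ 2 * T ^ (1 + δ / 4)) :
    T ^ (-(1 / 2 : ℝ)) * (√(T ^ (1 / 4 : ℝ)) * √(√(X : ℝ)) + √(X : ℝ) * T ^ (-δ)) ≤
      4 * T ^ (-(7 * δ / 8)) := by
  have hT0 : 0 < T := by linarith
  have e1 : √(X : ℝ) ≤ 2 * T ^ ((1 + δ / 4) / 2) := by
    rw [Real.sqrt_le_iff]
    refine ⟨by positivity, ?_⟩
    have : (T ^ ((1 + δ / 4) / 2)) ^ 2 = T ^ (1 + δ / 4) := by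
      rw [← Real.rpow_natCast, ← Real.rpow_mul hT0.le]
      congr 1
      push_cast
      ring
    rw [mul_pow, this]
    have h0 : 0 ≤ T ^ (1 + δ / 4) := Real.rpow_nonneg hT0.le _
    linarith
  have e2 : √(√(X : ℝ)) ≤ 2 * T ^ ((1 + δ / 4) / 4) := by
    rw [Real.sqrt_le_iff]
    refine ⟨by positivity, ?_⟩
    have : (T ^ ((1 + δ / 4) / 4)) ^ 2 = T ^ ((1 + δ / 4) / 2) := by
      rw [← Real.rpow_natCast, ← Real.rpow_mul hT0.le]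
      congr 1
      push_cast
      ring
    rw [mul_pow, this]
    have h0 : 0 ≤ T ^ ((1 + δ / 4) / 2) := Real.rpow_nonneg hT0.le _
    linarith
  have e3 : √(T ^ (1 / 4 : ℝ)) = T ^ (1 / 8 : ℝ) := by
    rw [Real.sqrt_eq_rpow, ← Real.rpow_mul hT0.le]
    congr 1
    norm_num
  rw [e3]
  calc T ^ (-(1 / 2 : ℝ)) * (T ^ (1 / 8 : ℝ) * √(√(X : ℝ)) + √(X : ℝ) * T ^ (-δ))
      ≤ T ^ (-(1 / 2 : ℝ)) * (T ^ (1 / 8 : ℝ) * (2 * T ^ ((1 + δ / 4) / 4)) +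
          2 * T ^ ((1 + δ / 4) / 2) * T ^ (-δ)) := by gcongr
    _ = 2 * (T ^ (-(1 / 2 : ℝ)) * T ^ (1 / 8 : ℝ) * T ^ ((1 + δ / 4) / 4)) +
          2 * (T ^ (-(1 / 2 : ℝ)) * T ^ ((1 + δ / 4) / 2) * T ^ (-δ)) := by ring
    _ = 2 * T ^ (-(1 / 2) + 1 / 8 + (1 + δ / 4) / 4) +
          2 * T ^ (-(1 / 2) + (1 + δ / 4) / 2 + -δ) := by
        rw [Real.rpow_add hT0, Real.rpow_add hT0, Real.rpow_add hT0, Real.rpow_add hT0]
    _ ≤ 2 * T ^ (-(7 * δ / 8)) + 2 * T ^ (-(7 * δ / 8)) := by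
        gcongr <;> first | exact hT | linarith
    _ = 4 * T ^ (-(7 * δ / 8)) := by ring

theorem t_SUM (h : Pool.Agent.U260.GZ.S_BC) : S_SUM := by
  obtain ⟨δ, b, hδ, hδ8, hb, Cb, T0, hCb, hT0, H⟩ := h
  refine ⟨δ / 4, δ / 2, b, by positivity, by linarith, by positivity, by linarith, hb,
    2 * (Cb * (8 * (1 + 8 / δ))), max T0 32, by positivity, le_max_of_le_left hT0, ?_⟩
  intro σ T y ω X hσ0 hσ1 hT hX1 hX2
  have hTT0 : T0 ≤ T := le_trans (le_max_left _ _) hT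
  have hT32 : 32 ≤ T := le_trans (le_max_right _ _) hT
  have hT1 : 1 ≤ T := by linarith
  have hTp : 0 < T := by linarith
  have hX5 := num1 hδ hδ8 hT32 hX2
  have hXpos : 1 ≤ X := by
    have : (1 : ℝ) ≤ X := le_trans (Real.one_le_rpow hT1 (by positivity)) hX1
    exact_mod_cast this
  have key : ∀ y' ω' : ℝ, ‖∑ p ∈ (PS X).filter (fun p => p.1 < p.2), bt σ b T y' ω' p.1 p.2‖ ≤
      Cb * (8 * (1 + 8 / δ)) * (1 + |y'|) * T ^ (-(δ / 2)) := by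
    intro y' ω'
    rw [sum_blocks X (fun m n => bt σ b T y' ω' m n)]
    set K := Cb * (1 + |y'|) * T ^ (-(1 / 2 : ℝ)) with hK
    have hK0 : 0 ≤ K := by positivity
    have step : ∀ q ∈ Finset.Icc 1 X ×ˢ Finset.range (Nat.log 2 X + 1),
        ‖∑ r ∈ Finset.range (LL X q.1 q.2), bt σ b T y' ω' q.1 (q.1 + 2 ^ q.2 + r)‖ ≤
        K * (if q.1 * (q.1 + 2 ^ q.2) ≤ X then bd δ T q.1 q.2 else 0) := by
      rintro ⟨m, j⟩ hq
      rw [Finset.mem_product, Finset.mem_Icc, Finset.mem_range] at hq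
      obtain ⟨⟨h1, h2⟩, h3⟩ := hq
      dsimp only at h1 h2 h3 ⊢
      split_ifs with hc
      · have := H σ T y' ω' m (2 ^ j) (LL X m j) hσ0 hσ1 hTT0 h1 Nat.one_le_two_pow
          (min_le_left _ _) (by
            have h4 : ((m * (m + 2 ^ j) : ℕ) : ℝ) ≤ (X : ℝ) := by exact_mod_cast hc
            push_cast at h4 ⊢
            exact h4.trans hX5)
        refine this.trans (le_of_eq ?_)
        rw [hK]
        unfold bd
        ring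
      · have : LL X m j = 0 := by
          by_contra h0
          have h4 := (lt_LL h1).1 (Nat.pos_of_ne_zero h0)
          exact hc (by simpa using h4.2)
        rw [this]
        simp
    refine (norm_sum_le _ _).trans ((Finset.sum_le_sum step).trans ?_)
    rw [← Finset.mul_sum, Finset.sum_product_right]
    have step2 : ∀ j ∈ Finset.range (Nat.log 2 X + 1),
        ∑ m ∈ Finset.Icc 1 X, (if m * (m + 2 ^ j) ≤ X then bd δ T m j else 0) ≤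
        2 * (√(T ^ (1 / 4 : ℝ)) * √(√(X : ℝ)) + √(X : ℝ) * T ^ (-δ)) := by
      intro j _
      rw [← Finset.sum_filter]
      exact sum_bd δ T hTp X j
    have step3 := Finset.sum_le_sum step2
    rw [Finset.sum_const, Finset.card_range, nsmul_eq_mul] at step3
    have n2 := num2 hδ hT1 hXpos hX5
    have n3 := num3 hδ hδ8 hT1 hX2
    set E := √(T ^ (1 / 4 : ℝ)) * √(√(X : ℝ)) + √(X : ℝ) * T ^ (-δ) with hE
    have hE0 : 0 ≤ E := by positivity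
    calc K * ∑ j ∈ Finset.range (Nat.log 2 X + 1), ∑ m ∈ Finset.Icc 1 X,
          (if m * (m + 2 ^ j) ≤ X then bd δ T m j else 0)
        ≤ K * (((Nat.log 2 X + 1 : ℕ) : ℝ) * (2 * E)) := by gcongr
      _ ≤ K * ((1 + 8 / δ) * T ^ (5 * δ / 16) * (2 * E)) := by gcongr
      _ = Cb * (1 + |y'|) * ((1 + 8 / δ) * T ^ (5 * δ / 16)) * 2 * (T ^ (-(1 / 2 : ℝ)) * E) := by
          rw [hK]; ring
      _ ≤ Cb * (1 + |y'|) * ((1 + 8 / δ) * T ^ (5 * δ / 16)) * 2 * (4 * T ^ (-(7 * δ / 8))) := by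
          gcongr
      _ = Cb * (8 * (1 + 8 / δ)) * (1 + |y'|) * (T ^ (5 * δ / 16) * T ^ (-(7 * δ / 8))) := by ring
      _ = Cb * (8 * (1 + 8 / δ)) * (1 + |y'|) * T ^ (5 * δ / 16 + -(7 * δ / 8)) := by
          rw [Real.rpow_add hTp]
      _ ≤ Cb * (8 * (1 + 8 / δ)) * (1 + |y'|) * T ^ (-(δ / 2)) := by
          gcongr
          linarith
  have split : ∑ p ∈ (PS X).filter (fun p => p.1 ≠ p.2), bt σ b T y ω p.1 p.2 =
      ∑ p ∈ (PS X).filter (fun p => p.1 < p.2), bt σ b T y ω p.1 p.2 +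
      ∑ p ∈ (PS X).filter (fun p => p.2 < p.1), bt σ b T y ω p.1 p.2 := by
    rw [← Finset.sum_union]
    · refine Finset.sum_congr ?_ fun _ _ => rfl
      ext p
      rw [Finset.mem_union, Finset.mem_filter, Finset.mem_filter, Finset.mem_filter,
        ← and_or_left, ne_iff_lt_or_gt]
    · rw [Finset.disjoint_filter]
      intro p _ h1 h2
      omega
  have swap : ∑ p ∈ (PS X).filter (fun p => p.2 < p.1), bt σ b T y ω p.1 p.2 =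
      (starRingEnd ℂ) (∑ p ∈ (PS X).filter (fun p => p.1 < p.2), bt σ b T (-y) (-ω) p.1 p.2) := by
    rw [map_sum]
    refine Finset.sum_nbij' Prod.swap Prod.swap ?_ ?_ ?_ ?_ ?_
    · intro p hp
      rw [Finset.mem_filter, mem_PS] at hp ⊢
      refine ⟨⟨hp.1.2.1, hp.1.1, ?_⟩, hp.2⟩
      have := hp.1.2.2
      rw [mul_comm]
      exact this
    · intro p hp
      rw [Finset.mem_filter, mem_PS] at hp ⊢
      refine ⟨⟨hp.1.2.1, hp.1.1, ?_⟩, hp.2⟩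
      have := hp.1.2.2
      rw [mul_comm]
      exact this
    · intro p _; rfl
    · intro p _; rfl
    · intro p _
      exact bt_swap σ b T y ω p.2 p.1
  rw [split, swap]
  refine (norm_add_le _ _).trans ?_
  rw [RCLike.norm_conj]
  have k1 := key y ω
  have k2 := key (-y) (-ω)
  rw [abs_neg] at k2
  have : 2 * (Cb * (8 * (1 + 8 / δ))) * (1 + |y|) * T ^ (-(δ / 2)) =
      Cb * (8 * (1 + 8 / δ)) * (1 + |y|) * T ^ (-(δ / 2)) +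
      Cb * (8 * (1 + 8 / δ)) * (1 + |y|) * T ^ (-(δ / 2)) := by ring
  rw [this]
  exact add_le_add k1 k2

end

end Pool.Agent.U354.GZS
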