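import Pool.Agent.U354.GZ.LG
import Pool.Agent.U79.GZ.Stm
import Pool.Agent.U739.GE.GOOD

/-! Project GZ (helper79), package DSC1 (helper354): the first Selmer group of the twist. -/

set_option autoImplicit false
set_option linter.unusedVariables false

open scoped Classical

namespace Pool.Agent.U354.GZ

open Finset
open Pool.Agent.Y703.CQ (nr)
open Pool.Agent.U115.GE (Qs ELS SelSet sel lsol_of_qs qs_sq qs_sqb qs_scale)
open Pool.Agent.U79.GY (Cfg Ok Hc Sp In Cl Mod cfg S_CFG)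
open Pool.Agent.U255.GY (ff dv uu xx eq_uu Hyp uu_dvd uu_sqf row xx_zero dv_not)
open Pool.Agent.U79.GZ

theorem qs_mul {K : Type} [Field K] {a b d d' : ℤ} (hb : (b : K) ≠ 0) (hd : (d : K) ≠ 0)
    (hd' : (d' : K) ≠ 0) (h : Qs K a b d) (h' : Qs K a b d') : Qs K a b (d * d') :=
  q0_mul hb hd hd' h h'

theorem qs_strip {K : Type} [Field K] {a b d t : ℤ} (hd : (d : K) ≠ 0) (ht : (t : K) ≠ 0) :
    Qs K a b (d * t ^ 2) ↔ Qs K a b d :=
  q0_strip hd ht

section

variable {a b : ℤ} {M : ℕ}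

theorem ls_one : LS a b M 1 :=
  ⟨qs_sq ⟨1, by push_cast; ring⟩, fun l _ _ => qs_sq ⟨1, by push_cast; ring⟩⟩

theorem ls_mul (hb : b ≠ 0) {d d' : ℤ} (hd : d ≠ 0) (hd' : d' ≠ 0) (h : LS a b M d)
    (h' : LS a b M d') : LS a b M (d * d') :=
  ⟨qs_mul (by exact_mod_cast hb) (by exact_mod_cast hd) (by exact_mod_cast hd') h.1 h'.1,
    fun l _ hl => qs_mul (by exact_mod_cast hb) (by exact_mod_cast hd) (by exact_mod_cast hd')
      (h.2 l hl) (h'.2 l hl)⟩

theorem ls_strip {d t : ℤ} (hd : d ≠ 0) (ht : t ≠ 0) (h : LS a b M (d * t ^ 2)) : LS a b M d :=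
  ⟨(qs_strip (by exact_mod_cast hd) (by exact_mod_cast ht)).1 h.1,
    fun l _ hl => (qs_strip (by exact_mod_cast hd) (by exact_mod_cast ht)).1 (h.2 l hl)⟩

theorem ls_prod (hb : b ≠ 0) (T : Finset ℕ) (h : ℕ → ℤ) (h0 : ∀ q ∈ T, h q ≠ 0)
    (hL : ∀ q ∈ T, LS a b M (h q)) : LS a b M (∏ q ∈ T, h q) := by
  induction T using Finset.induction_on with
  | empty => simpa using ls_one
  | insert q T hq ih =>
    rw [Finset.prod_insert hq]
    refine ls_mul hb (h0 q (Finset.mem_insert_self _ _)) ?_ (hL q (Finset.mem_insert_self _ _)) ?_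
    · exact Finset.prod_ne_zero_iff.2 fun r hr => h0 r (Finset.mem_insert_of_mem hr)
    · exact ih (fun r hr => h0 r (Finset.mem_insert_of_mem hr))
        (fun r hr => hL r (Finset.mem_insert_of_mem hr))

end

/-- the twisting number is a square at the bad places -/
theorem sq_bad {M D : ℕ} (hP : Pr M D) {l : ℕ} [hl : Fact l.Prime] (hlM : l ∣ M) :
    IsSquare (((D : ℕ) : ℤ) : ℚ_[l]) := by
  by_cases h2 : l = 2
  · subst h2
    refine padic_sq2 ?_
    have := hP.1
    omega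
  · have h1 : legendreSym l D = 1 := by
      rw [jacobiSym.legendreSym.to_jacobiSym]
      exact hP.2 l hl.out h2 hlM
    have h0 : (((D : ℕ) : ℤ) : ZMod l) ≠ 0 := by
      intro h
      rw [(legendreSym.eq_zero_iff l D).2 h] at h1
      exact absurd h1 (by norm_num)
    refine padic_sq h2 ?_ ((legendreSym.eq_one_iff l h0).1 h1)
    intro h
    exact h0 ((ZMod.intCast_zmod_eq_zero_iff_dvd _ l).2 h)

theorem mem_gn {M : ℕ} {g : ℤ} (hg : g ∈ Gn M) : g = -1 ∨ ∃ l ∈ M.primeFactors, g = (l : ℤ) := by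
  unfold Gn at hg
  rw [Finset.mem_insert, Finset.mem_image] at hg
  rcases hg with rfl | ⟨l, hl, rfl⟩
  · exact Or.inl rfl
  · right
    simp only [Finset.bind_def, Finset.pure_def, Finset.mem_sup, Finset.mem_singleton] at hl
    first
    | exact hl
    | exact ⟨l, hl, rfl⟩

theorem gn_ne {M : ℕ} {g : ℤ} (hg : g ∈ Gn M) : g ≠ 0 := by
  rcases mem_gn hg with rfl | ⟨l, hl, rfl⟩
  · norm_num
  · have := (Nat.prime_of_mem_primeFactors hl).ne_zero
    exact_mod_cast this

theorem gn_unit {M : ℕ} {g : ℤ} (hg : g ∈ Gn M) {p : ℕ} [hp : Fact p.Prime] (hpM : ¬ p ∣ M) :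
    (g : ZMod p) ≠ 0 := by
  rcases mem_gn hg with rfl | ⟨l, hl, rfl⟩
  · push_cast
    exact neg_ne_zero.2 one_ne_zero
  · rw [Int.cast_natCast, Ne, ZMod.natCast_eq_zero_iff]
    intro h
    have h1 := (Nat.prime_dvd_prime_iff_eq hp.out (Nat.prime_of_mem_primeFactors hl)).1 h
    exact hpM (h1 ▸ Nat.dvd_of_mem_primeFactors hl)

theorem vv_ne (M : ℕ) (w : ℤ → ℤ) (q : ℕ) : vv M w q ≠ 0 := by
  unfold vv
  refine Finset.prod_ne_zero_iff.2 fun g hg => ?_
  split_ifs
  · exact one_ne_zero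
  · exact gn_ne hg

theorem fac_unit {M : ℕ} {w : ℤ → ℤ} {q : ℕ} {g : ℤ} (hg : g ∈ Gn M) {p : ℕ} [hp : Fact p.Prime]
    (hpM : ¬ p ∣ M) : (((if IsSquare (w g : ZMod q) then 1 else g : ℤ)) : ZMod p) ≠ 0 := by
  split_ifs
  · push_cast
    exact one_ne_zero
  · exact gn_unit hg hpM

theorem vv_unit {M : ℕ} {w : ℤ → ℤ} {q : ℕ} {p : ℕ} [hp : Fact p.Prime] (hpM : ¬ p ∣ M) :
    ((vv M w q : ℤ) : ZMod p) ≠ 0 := by
  unfold vv
  rw [Int.cast_prod]
  exact Finset.prod_ne_zero_iff.2 fun g hg => fac_unit hg hpM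

theorem nz_one (p : ℕ) : nz p 1 = 0 := by
  unfold nz
  rw [if_pos]
  exact ⟨1, by push_cast; ring⟩

theorem nz_sq (p : ℕ) (t : ℤ) : nz p (t ^ 2) = 0 := by
  unfold nz
  rw [if_pos]
  exact ⟨t, by push_cast; ring⟩

theorem nz_mul' {p : ℕ} [hp : Fact p.Prime] {m n : ℤ} (hm : (m : ZMod p) ≠ 0)
    (hn : (n : ZMod p) ≠ 0) : nz p (m * n) = nz p m + nz p n :=
  Pool.Agent.U255.GY.nz_mul hm hn

theorem nz_prodI {p : ℕ} [hp : Fact p.Prime] {ι : Type} (T : Finset ι) (h : ι → ℤ)
    (h0 : ∀ i ∈ T, ((h i : ℤ) : ZMod p) ≠ 0) : nz p (∏ i ∈ T, h i) = ∑ i ∈ T, nz p (h i) := by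
  induction T using Finset.induction_on with
  | empty => simpa using nz_one p
  | insert q T hq ih =>
    rw [Finset.prod_insert hq, Finset.sum_insert hq, ← ih fun i hi => h0 i (Finset.mem_insert_of_mem hi)]
    refine nz_mul' (h0 q (Finset.mem_insert_self _ _)) ?_
    rw [Int.cast_prod]
    exact Finset.prod_ne_zero_iff.2 fun r hr => h0 r (Finset.mem_insert_of_mem hr)

theorem nz_vv {M : ℕ} {w : ℤ → ℤ} {q : ℕ} {p : ℕ} [hp : Fact p.Prime] (hpM : ¬ p ∣ M) :
    nz p (vv M w q) = gm M w p q := by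
  unfold vv gm
  rw [nz_prodI _ _ fun g hg => fac_unit hg hpM]
  refine Finset.sum_congr rfl fun g _ => ?_
  by_cases h : IsSquare (w g : ZMod q)
  · rw [if_pos h, nz_one]
    unfold nz
    rw [if_pos h, mul_zero]
  · rw [if_neg h]
    have : nz q (w g) = 1 := by
      unfold nz
      rw [if_neg h]
    rw [this, mul_one]

/-- the Selmer group of the curve -/
theorem sel_sq {a b : ℤ} (nb : ¬ IsSquare b) (s1 : sel a b = 2) {s : ℤ} (hs : s ∈ SelSet a b)
    {p : ℕ} [hp : Fact p.Prime] (hbp : IsSquare (b : ZMod p)) (hb0p : (b : ZMod p) ≠ 0) :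
    nz p s = 0 := by
  have hb0 : b ≠ 0 := by
    rintro rfl
    exact nb ⟨0, by ring⟩
  obtain ⟨b0, t, hsf, ht, hb⟩ := int_sqf b hb0
  have hb00 : b0 ≠ 0 := hsf.ne_zero
  have hm1 : (1 : ℤ) ∈ SelSet a b :=
    ⟨squarefree_one, qs_sq ⟨1, by push_cast; ring⟩, fun p _ => qs_sq ⟨1, by push_cast; ring⟩⟩
  have hm2 : b0 ∈ SelSet a b := by
    refine ⟨hsf, qs_sqb (by exact_mod_cast hb00) ⟨b0 * t, ?_⟩,
      fun p _ => qs_sqb (by exact_mod_cast hb00) ⟨b0 * t, ?_⟩⟩
    · rw [hb]; push_cast; ring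
    · rw [hb]; push_cast; ring
  have hne : (1 : ℤ) ≠ b0 := by
    intro h
    apply nb
    rw [hb, ← h]
    exact ⟨t, by ring⟩
  have hsub : ({1, b0} : Set ℤ) ⊆ SelSet a b := by
    intro x hx
    rcases hx with rfl | hx
    · exact hm1
    · rw [Set.mem_singleton_iff.1 hx]
      exact hm2
  have hfin : (SelSet a b).Finite := by
    apply Set.finite_of_ncard_ne_zero
    unfold sel at s1
    rw [s1]
    norm_num
  have heq := Set.eq_of_subset_of_ncard_le hsub (by
    rw [Set.ncard_pair hne]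
    exact s1.le) hfin
  rw [← heq] at hs
  rcases hs with rfl | hs
  · exact nz_one p
  · rw [Set.mem_singleton_iff.1 hs]
    unfold nz
    rw [if_pos]
    obtain ⟨r, hr⟩ := hbp
    have hbz : (b : ZMod p) = (b0 : ZMod p) * (t : ZMod p) ^ 2 := by
      rw [hb]; push_cast; ring
    have htz : (t : ZMod p) ≠ 0 := by
      intro h
      rw [h] at hbz
      exact hb0p (by rw [hbz]; ring)
    refine ⟨r / t, ?_⟩
    rw [div_mul_div_comm, ← hr, hbz]
    field_simp

/-- membership in the Selmer group of the curve -/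
theorem mem_sel {a b : ℤ} {M : ℕ} (hM : Mod b (a ^ 2 - 4 * b) M) {s : ℤ} (hs : Squarefree s)
    (hL : LS a b M s) (hu : ∀ p : ℕ, p.Prime → ¬ p ∣ M → ¬ (p : ℤ) ∣ s) : s ∈ SelSet a b := by
  refine ⟨hs, hL.1, fun p hp => ?_⟩
  by_cases hpM : p ∣ M
  · exact hL.2 p hpM
  · refine Pool.Agent.U739.GE.t_GOOD a b s p ?_ ?_ ?_ (hu p hp.out hpM)
    · rintro rfl
      exact hpM hM.two
    · intro h
      exact hpM ((Int.natCast_dvd.1 h).trans hM.hb)
    · intro h
      exact hpM ((Int.natCast_dvd.1 h).trans hM.hc)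

theorem t_DSC1 : S_DSC1 := by
  intro hCFG a b M w hD S hCl hPr hGd
  obtain ⟨hOk, hSp, hIn⟩ := hCFG b (a ^ 2 - 4 * b) M hD.hM hD.nb hD.nc
  have hb0 : b ≠ 0 := by
    rintro rfl
    exact hD.nb ⟨0, by ring⟩
  -- the class
  have hH : Hyp a b M (Hc (cfg b (a ^ 2 - 4 * b) M)) S := by
    intro p hp
    rcases hCl p hp with h | h
    · obtain ⟨h1, h2, h3⟩ := (hSp p h.1).1 h
      exact ⟨h.1, h1, Or.inl ⟨h.2, h2, h3⟩⟩
    · obtain ⟨h1, h2, h3⟩ := (hIn p h.1).1 h
      exact ⟨h.1, h1, Or.inr ⟨(hOk.hB _ h.2).2.2, h2, h3⟩⟩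
  have hS : ∀ p ∈ S, p.Prime := fun p hp => (hH p hp).1
  have hsp : ∀ p ∈ S, Hc (cfg b (a ^ 2 - 4 * b) M) p → IsSquare (b : ZMod p) := by
    intro p hp hP
    rcases (hH p hp).2.2 with h | h
    · exact h.2.1
    · exact absurd hP h.1
  -- the twisting number
  set D : ℤ := ((∏ p ∈ S, p : ℕ) : ℤ) with hDdef
  have hDpos : 0 < D := by
    rw [hDdef]
    exact_mod_cast Finset.prod_pos fun p hp => (hS p hp).pos
  -- the main inclusion
  have key : ∀ d ∈ SelSet (a * D) (b * D ^ 2), d ∈ SelSet a b := by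
    rintro d ⟨hd, hdR, hdP⟩
    have hd0 : d ≠ 0 := hd.ne_zero
    have hLd : LS a b M d := by
      constructor
      · have h1 : IsSquare ((D : ℤ) : ℝ) :=
          ⟨Real.sqrt D, (Real.mul_self_sqrt (by exact_mod_cast hDpos.le)).symm⟩
        have h2 := (qs_scale (K := ℝ) (a := a) (b := b) (u := d) (c := 1) (D := D) h1
          (by exact_mod_cast hDpos.ne') ⟨1, by push_cast; ring⟩ (by push_cast; exact one_ne_zero)).1
        rw [one_mul] at h2
        exact h2 hdR
      · intro l hl hlM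
        have h1 : IsSquare ((D : ℤ) : ℚ_[l]) := sq_bad hPr hlM
        have h2 := (qs_scale (K := ℚ_[l]) (a := a) (b := b) (u := d) (c := 1) (D := D) h1
          (by exact_mod_cast hDpos.ne') ⟨1, by push_cast; ring⟩ (by push_cast; exact one_ne_zero)).1
        rw [one_mul] at h2
        exact h2 (hdP l)
    have hLS : ∀ (l : ℕ) [Fact l.Prime], Pool.Agent.U115.TP.LSol (a * ((∏ p ∈ S, p : ℕ) : ℤ))
        (b * ((∏ p ∈ S, p : ℕ) : ℤ) ^ 2) d l := fun l _ => lsol_of_qs hd (hdP l)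
    set P := Hc (cfg b (a ^ 2 - 4 * b) M) with hPdef
    have hdu := eq_uu P S hS d
    set T := dv P S d with hT
    set u := uu P S d with hu
    have hTS : ∀ q ∈ T, q ∈ S ∧ P q := fun q hq =>
      ⟨(Finset.mem_filter.1 hq).1, (Finset.mem_filter.1 hq).2.1⟩
    have husf : Squarefree u := uu_sqf hS hd
    have hudvd : ∀ p : ℕ, p.Prime → ¬ p ∣ M → ¬ (p : ℤ) ∣ u := by
      intro p hp hpM h
      have h1 := uu_dvd hH hd hLS hp h
      exact hpM ((Int.natCast_dvd.1 h1).trans hD.hM.hb)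
    have hV0 : ∀ T' : Finset ℕ, (∏ q ∈ T', vv M w q) ≠ 0 := fun T' =>
      Finset.prod_ne_zero_iff.2 fun q _ => vv_ne M w q
    have hTn0 : ((∏ q ∈ T, q : ℕ) : ℤ) ≠ 0 := by
      have := Finset.prod_ne_zero_iff.2 fun q hq => (hS q (hTS q hq).1).ne_zero
      exact_mod_cast this
    -- the product is in the local images
    have hLV : LS a b M (u * ∏ q ∈ T, vv M w q) := by
      have h1 : LS a b M (∏ q ∈ T, ((q : ℤ) * vv M w q)) := by
        refine ls_prod hb0 T _ (fun q hq => mul_ne_zero ?_ (vv_ne M w q)) fun q hq => ?_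
        · have := (hS q (hTS q hq).1).ne_zero
          exact_mod_cast this
        · exact hD.hL q ⟨hS q (hTS q hq).1, (hTS q hq).2⟩
      have h2 := ls_mul hb0 hd0 (Finset.prod_ne_zero_iff.2 fun q hq => mul_ne_zero (by
        have := (hS q (hTS q hq).1).ne_zero
        exact_mod_cast this) (vv_ne M w q)) hLd h1
      have e : d * ∏ q ∈ T, ((q : ℤ) * vv M w q) =
          (u * ∏ q ∈ T, vv M w q) * ((∏ q ∈ T, q : ℕ) : ℤ) ^ 2 := by
        rw [Finset.prod_mul_distrib]
        conv_lhs => rw [hdu]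
        push_cast
        ring
      rw [e] at h2
      exact ls_strip (mul_ne_zero husf.ne_zero (hV0 T)) hTn0 h2
    -- the symbol of `u`
    have hclaim : ∀ p ∈ S, P p →
        Pool.Agent.U255.GY.nz p u = ∑ q ∈ S, gm M w p q * xx P S d q := by
      intro p hp hP
      have hF : Fact p.Prime := ⟨hS p hp⟩
      have hpM := (hH p hp).2.1
      obtain ⟨s, t, hssf, ht0, hst⟩ := int_sqf (u * ∏ q ∈ T, vv M w q)
        (mul_ne_zero husf.ne_zero (hV0 T))
      have hLs : LS a b M s := by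
        rw [hst] at hLV
        exact ls_strip hssf.ne_zero ht0 hLV
      have hVu : ∀ (r : ℕ) [Fact r.Prime], ¬ r ∣ M →
          (((∏ q ∈ T, vv M w q : ℤ)) : ZMod r) ≠ 0 := by
        intro r hr hrM
        rw [Int.cast_prod]
        exact Finset.prod_ne_zero_iff.2 fun q _ => vv_unit hrM
      have huu : ∀ (r : ℕ) [Fact r.Prime], ¬ r ∣ M → ((u : ℤ) : ZMod r) ≠ 0 := by
        intro r hr hrM h
        exact hudvd r hr.out hrM ((ZMod.intCast_zmod_eq_zero_iff_dvd u r).1 h)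
      have hsM : ∀ r : ℕ, r.Prime → ¬ r ∣ M → ¬ (r : ℤ) ∣ s := by
        intro r hr hrM h
        have hFr : Fact r.Prime := ⟨hr⟩
        have h1 : (r : ℤ) ∣ u * ∏ q ∈ T, vv M w q := by
          rw [hst]
          exact h.mul_right _
        have h2 := (ZMod.intCast_zmod_eq_zero_iff_dvd _ r).2 h1
        push_cast at h2
        have h3 := hVu r hrM
        push_cast at h3
        exact mul_ne_zero (huu r hrM) h3 h2
      have hsel := mem_sel hD.hM hssf hLs hsM
      have hbp : (b : ZMod p) ≠ 0 := by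
        rw [Ne, ZMod.intCast_zmod_eq_zero_iff_dvd]
        intro h8
        exact hpM ((Int.natCast_dvd.1 h8).trans hD.hM.hb)
      have hns := sel_sq hD.nb hD.s1 hsel (hsp p hp hP) hbp
      have hsp0 : (s : ZMod p) ≠ 0 := by
        rw [Ne, ZMod.intCast_zmod_eq_zero_iff_dvd]
        exact hsM p (hS p hp) hpM
      have htp0 : ((t ^ 2 : ℤ) : ZMod p) ≠ 0 := by
        intro h
        have h1 : ((u * ∏ q ∈ T, vv M w q : ℤ) : ZMod p) = 0 := by
          rw [hst, Int.cast_mul, h, mul_zero]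
        rw [Int.cast_mul] at h1
        exact mul_ne_zero (huu p hpM) (hVu p hpM) h1
      have h1 : nz p (u * ∏ q ∈ T, vv M w q) = 0 := by
        rw [hst, nz_mul' hsp0 htp0, hns, nz_sq, add_zero]
      rw [nz_mul' (huu p hpM) (hVu p hpM), nz_prodI T _ fun q _ => vv_unit hpM] at h1
      have h2 : ∑ q ∈ T, nz p (vv M w q) = ∑ q ∈ S, gm M w p q * xx P S d q := by
        have hTs : T = S.filter (· ∈ T) := by
          ext q
          simp only [Finset.mem_filter]
          exact ⟨fun h => ⟨(hTS q h).1, h⟩, fun h => h.2⟩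
        conv_lhs => rw [hTs]
        rw [Finset.sum_filter]
        refine Finset.sum_congr rfl fun q _ => ?_
        unfold xx
        rw [← hT]
        by_cases hq : q ∈ T
        · rw [if_pos hq, if_pos hq, mul_one, nz_vv hpM]
        · rw [if_neg hq, if_neg hq, mul_zero]
      rw [h2] at h1
      have h3 : nz p u = Pool.Agent.U255.GY.nz p u := rfl
      rw [← h3]
      generalize nz p u = A at h1 ⊢
      generalize ∑ q ∈ S, gm M w p q * xx P S d q = B at h1 ⊢
      revert A B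
      decide
    -- the kernel
    have hx := hGd (xx P S d) (fun p hp => xx_zero hp) (by
      intro p hp hP
      have h1 := row hD.hM hH hd hLS hp hP
      rw [← hu, hclaim p hp hP] at h1
      generalize ∑ q ∈ S, nr p q * (xx P S d q + xx P S d p) = A at h1 ⊢
      generalize ∑ q ∈ S, gm M w p q * xx P S d q = B at h1 ⊢
      generalize ff a b p * xx P S d p = C at h1 ⊢
      revert A B C
      decide)
    have hTe : T = ∅ := by
      rw [Finset.eq_empty_iff_forall_notMem]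
      intro q hq
      have h1 := hx q
      unfold xx at h1
      rw [← hT, if_pos hq] at h1
      exact one_ne_zero h1
    have hdeq : d = u := by
      rw [hTe] at hdu
      simpa using hdu
    have hLu : LS a b M u := by
      rw [hTe] at hLV
      simpa using hLV
    rw [hdeq]
    exact mem_sel hD.hM husf hLu hudvd
  have hfin : (SelSet a b).Finite := by
    apply Set.finite_of_ncard_ne_zero
    have := hD.s1
    unfold sel at this
    rw [this]
    norm_num
  have := Set.ncard_le_ncard (s := SelSet (a * D) (b * D ^ 2)) (t := SelSet a b) key hfin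
  have h2 := hD.s1
  unfold sel at h2 ⊢
  omega

end Pool.Agent.U354.GZ
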