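import Mathlib

/-! Project GZ (helper79), package DSC1 (helper354), first part: the local images form a group. -/

set_option autoImplicit false

namespace Pool.Agent.U354.GZ

/-- `d` is modulo squares the value of `x` at a point over `K` of the curve `y² = x³ + a x² + b x` -/
def LA (K : Type) [Field K] (a b d : K) : Prop :=
  IsSquare d ∨ IsSquare (b * d) ∨
    ∃ X Y : K, X ≠ 0 ∧ Y ^ 2 = X * (X ^ 2 + a * X + b) ∧ IsSquare (X * d)

section

variable {K : Type} [Field K] {a b d d' : K}

lemma la_sq' {t : K} (ht : t ≠ 0) (h : LA K a b d) : LA K a b (d * t ^ 2) := by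
  rcases h with ⟨s, hs⟩ | ⟨s, hs⟩ | ⟨X, Y, hX, hY, s, hs⟩
  · exact Or.inl ⟨s * t, by rw [hs]; ring⟩
  · exact Or.inr (Or.inl ⟨s * t, by linear_combination t ^ 2 * hs⟩)
  · exact Or.inr (Or.inr ⟨X, Y, hX, hY, s * t, by linear_combination t ^ 2 * hs⟩)

lemma la_b (hb : b ≠ 0) (h : LA K a b d) : LA K a b (b * d) := by
  rcases h with ⟨s, hs⟩ | h | ⟨X, Y, hX, hY, s, hs⟩
  · exact Or.inr (Or.inl ⟨b * s, by rw [hs]; ring⟩)
  · exact Or.inl h
  · refine Or.inr (Or.inr ⟨b / X, b * Y / X ^ 2, div_ne_zero hb hX, ?_, b * s / X, ?_⟩)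
    · field_simp
      linear_combination hY
    · field_simp
      linear_combination hs

/-- the local classes form a group -/
theorem la_mul (hb : b ≠ 0) (hd : d ≠ 0) (hd' : d' ≠ 0) (h : LA K a b d)
    (h' : LA K a b d') : LA K a b (d * d') := by
  rcases h with ⟨s, hs⟩ | ⟨s, hs⟩ | ⟨X, Y, hX, hY, s, hs⟩
  · have hs0 : s ≠ 0 := by
      rintro rfl
      exact hd (by rw [hs]; ring)
    have := la_sq' hs0 h'
    have e : d * d' = d' * s ^ 2 := by rw [hs]; ring
    rw [e]
    exact this
  · have hs0 : s ≠ 0 := by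
      rintro rfl
      exact (mul_ne_zero hb hd) (by rw [hs]; ring)
    have h1 := la_sq' (div_ne_zero hs0 hb) (la_b hb h')
    have e : b * d' * (s / b) ^ 2 = d * d' := by
      field_simp
      linear_combination -hs
    rwa [e] at h1
  · rcases h' with ⟨s', hs'⟩ | ⟨s', hs'⟩ | ⟨X', Y', hX', hY', s', hs'⟩
    · have hs0 : s' ≠ 0 := by
        rintro rfl
        exact hd' (by rw [hs']; ring)
      have := la_sq' (a := a) (b := b) (d := d) hs0 (Or.inr (Or.inr ⟨X, Y, hX, hY, s, hs⟩))
      have e : d * d' = d * s' ^ 2 := by rw [hs']; ring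
      rw [e]
      exact this
    · have hs0 : s' ≠ 0 := by
        rintro rfl
        exact (mul_ne_zero hb hd') (by rw [hs']; ring)
      have h1 := la_sq' (div_ne_zero hs0 hb)
        (la_b (a := a) (d := d) hb (Or.inr (Or.inr ⟨X, Y, hX, hY, s, hs⟩)))
      have e : b * d * (s' / b) ^ 2 = d * d' := by
        field_simp
        linear_combination -hs'
      rwa [e] at h1
    · by_cases hXX : X = X'
      · left
        subst hXX
        refine ⟨s * s' / X, ?_⟩
        have h1 : (s * s' / X) * (s * s' / X) = (s * s) * (s' * s') / (X * X) := by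
          field_simp
        rw [h1, ← hs, ← hs']
        field_simp
      · have hne : X' - X ≠ 0 := sub_ne_zero.2 fun h => hXX h.symm
        -- the line
        obtain ⟨l, hl⟩ : ∃ l : K, l * (X' - X) = Y' - Y := ⟨(Y' - Y) / (X' - X), by field_simp⟩
        obtain ⟨m, hm⟩ : ∃ m : K, m = Y - l * X := ⟨_, rfl⟩
        have hY1 : Y = l * X + m := by rw [hm]; ring
        have hY2 : Y' = l * X' + m := by rw [hm]; linear_combination -hl
        obtain ⟨Z, hZ⟩ : ∃ Z : K, Z = l ^ 2 - a - X - X' := ⟨_, rfl⟩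
        -- the two other symmetric functions of the roots
        have hf1 : X ^ 3 + (a - l ^ 2) * X ^ 2 + (b - 2 * l * m) * X - m ^ 2 = 0 := by
          rw [hY1] at hY
          linear_combination -hY
        have hf2 : X' ^ 3 + (a - l ^ 2) * X' ^ 2 + (b - 2 * l * m) * X' - m ^ 2 = 0 := by
          rw [hY2] at hY'
          linear_combination -hY'
        have he2 : X ^ 2 + X * X' + X' ^ 2 + (a - l ^ 2) * (X + X') + (b - 2 * l * m) = 0 := by
          apply mul_left_cancel₀ hne
          rw [mul_zero]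
          linear_combination hf2 - hf1
        have he3 : X * X' * Z = m ^ 2 := by
          rw [hZ]
          linear_combination hf1 - X * he2
        have he4 : X * X' + X * Z + X' * Z = b - 2 * l * m := by
          rw [hZ]
          linear_combination -he2
        have hsum : X + X' + Z = l ^ 2 - a := by rw [hZ]; ring
        by_cases hm0 : m = 0
        · -- the sum is the point of order two
          rw [hm0] at he3 he4
          have hZ0 : Z = 0 := by
            have : X * X' * Z = 0 := by rw [he3]; ring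
            exact (mul_eq_zero.1 this).resolve_left (mul_ne_zero hX hX')
          rw [hZ0] at he4
          right; left
          refine ⟨s * s', ?_⟩
          have : b = X * X' := by linear_combination -he4
          rw [this]
          linear_combination d' * X' * hs + s ^ 2 * hs'
        · right; right
          have hZ0 : Z ≠ 0 := by
            rintro hZ0
            rw [hZ0, mul_zero] at he3
            exact hm0 (pow_eq_zero_iff (two_ne_zero) |>.1 he3.symm)
          refine ⟨Z, l * Z + m, hZ0, ?_, m * s * s' / (X * X'), ?_⟩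
          · have hcub : Z ^ 3 + (a - l ^ 2) * Z ^ 2 + (b - 2 * l * m) * Z - m ^ 2 = 0 := by
              rw [← he3, ← he4]
              have : a - l ^ 2 = -(X + X' + Z) := by rw [hsum]; ring
              rw [this]
              ring
            linear_combination -hcub
          · have h1 : m * s * s' / (X * X') * (m * s * s' / (X * X')) =
                m ^ 2 * (s * s) * (s' * s') / (X * X') ^ 2 := by
              field_simp
            rw [h1, ← hs, ← hs', ← he3]
            field_simp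


end

/-- the covering has a nontrivial point -/
def Q0 (K : Type) [Field K] (a b d : ℤ) : Prop :=
  ∃ N M e : K, (M ≠ 0 ∨ e ≠ 0) ∧
    N ^ 2 = (d : K) * M ^ 4 + (a : K) * M ^ 2 * e ^ 2 + (b : K) / (d : K) * e ^ 4

theorem q0_iff {K : Type} [Field K] {a b d : ℤ} (hd : (d : K) ≠ 0) :
    Q0 K a b d ↔ LA K (a : K) (b : K) (d : K) := by
  constructor
  · rintro ⟨N, M, e, hne, h⟩
    by_cases he : e = 0
    · have hM : M ≠ 0 := hne.resolve_right (fun h => h he)
      left
      refine ⟨N / M ^ 2, ?_⟩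
      rw [he] at h
      field_simp
      linear_combination -h
    · by_cases hM : M = 0
      · right; left
        refine ⟨N * d / e ^ 2, ?_⟩
        rw [hM] at h
        have h2 : (d : K) * N ^ 2 = (b : K) * e ^ 4 := by
          rw [h]
          field_simp
          ring
        field_simp
        linear_combination -h2
      · right; right
        refine ⟨d * (M / e) ^ 2, d * (M / e) * (N / e ^ 2), ?_, ?_, ⟨d * (M / e), by ring⟩⟩
        · exact mul_ne_zero hd (pow_ne_zero 2 (div_ne_zero hM he))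
        · have h2 : (d : K) * N ^ 2 = (d : K) ^ 2 * M ^ 4 + (a : K) * d * M ^ 2 * e ^ 2 +
              (b : K) * e ^ 4 := by
            rw [h]
            field_simp
          field_simp
          linear_combination h2
  · rintro (⟨s, hs⟩ | ⟨s, hs⟩ | ⟨X, Y, hX, hY, r, hr⟩)
    · exact ⟨s, 1, 0, Or.inl one_ne_zero, by rw [hs]; ring⟩
    · refine ⟨s / d, 0, 1, Or.inr one_ne_zero, ?_⟩
      rw [div_pow, sq s, ← hs]
      field_simp
      ring
    · have hr0 : r ≠ 0 := by
        rintro rfl
        exact mul_ne_zero hX hd (by rw [hr]; ring)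
      refine ⟨Y / r, r / d, 1, Or.inr one_ne_zero, ?_⟩
      have e1 : (Y / r) ^ 2 = (X ^ 2 + a * X + b) / d := by
        rw [div_pow, hY, sq r, ← hr]
        field_simp
      have e2 : (r / d) ^ 2 = X / d := by
        rw [div_pow, sq r, ← hr]
        field_simp
      have e3 : (r / d) ^ 4 = (X / d) ^ 2 := by
        rw [← e2]; ring
      rw [e1, e2, e3]
      field_simp

theorem q0_mul {K : Type} [Field K] {a b d d' : ℤ} (hb : (b : K) ≠ 0) (hd : (d : K) ≠ 0)
    (hd' : (d' : K) ≠ 0) (h : Q0 K a b d) (h' : Q0 K a b d') : Q0 K a b (d * d') := by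
  rw [q0_iff hd] at h
  rw [q0_iff hd'] at h'
  rw [q0_iff (by push_cast; exact mul_ne_zero hd hd')]
  push_cast
  exact la_mul hb hd hd' h h'

theorem q0_strip {K : Type} [Field K] {a b d t : ℤ} (hd : (d : K) ≠ 0) (ht : (t : K) ≠ 0) :
    Q0 K a b (d * t ^ 2) ↔ Q0 K a b d := by
  rw [q0_iff hd, q0_iff (by push_cast; exact mul_ne_zero hd (pow_ne_zero 2 ht))]
  push_cast
  constructor
  · intro h
    have h2 := la_sq' (inv_ne_zero ht) h
    have e : (d : K) * (t : K) ^ 2 * ((t : K)⁻¹) ^ 2 = d := by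
      field_simp
    rwa [e] at h2
  · exact la_sq' ht

/-- an integer is a squarefree integer times a square -/
theorem int_sqf (z : ℤ) (hz : z ≠ 0) : ∃ s t : ℤ, Squarefree s ∧ t ≠ 0 ∧ z = s * t ^ 2 := by
  obtain ⟨a, c, hac, hsf⟩ := Nat.sq_mul_squarefree z.natAbs
  have h1 : z = (z.sign * a) * (c : ℤ) ^ 2 := by
    have h2 := Int.sign_mul_natAbs z
    rw [← hac] at h2
    push_cast at h2
    linear_combination -h2
  refine ⟨z.sign * a, c, ?_, ?_, h1⟩
  · rw [← Int.squarefree_natAbs, Int.natAbs_mul, Int.natAbs_sign_of_ne_zero hz, one_mul,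
      Int.natAbs_natCast]
    exact hsf
  · intro h
    rw [h] at h1
    apply hz
    rw [h1]; ring

section

open Polynomial

lemma padic_sq {p : ℕ} [hp : Fact p.Prime] (hp2 : p ≠ 2) {n : ℤ} (hn : ¬ (p : ℤ) ∣ n)
    (h : IsSquare (n : ZMod p)) : IsSquare (n : ℚ_[p]) := by
  obtain ⟨a, ha⟩ := h
  obtain ⟨s, hs⟩ := ZMod.intCast_surjective a
  have h1 : (p : ℤ) ∣ s ^ 2 - n := by
    rw [← ZMod.intCast_zmod_eq_zero_iff_dvd]
    push_cast
    rw [ha, hs]
    ring
  have h2 : ¬ (p : ℤ) ∣ 2 * s := by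
    intro h2
    have hpi : Prime (p : ℤ) := Nat.prime_iff_prime_int.1 hp.out
    rcases hpi.dvd_or_dvd h2 with h3 | h3
    · have h5 : p ∣ 2 := by exact_mod_cast h3
      exact hp2 ((Nat.prime_dvd_prime_iff_eq hp.out Nat.prime_two).1 h5)
    · apply hn
      have := dvd_sub ((dvd_pow h3 two_ne_zero : (p : ℤ) ∣ s ^ 2)) h1
      simpa using this
  have e1 : ∀ w : ℤ_[p], (aeval w) (X ^ 2 - C (n : ℤ_[p]) : ℤ_[p][X]) = w ^ 2 - n := by
    intro w; simp
  have e2 : ∀ w : ℤ_[p], (aeval w) (derivative (X ^ 2 - C (n : ℤ_[p]) : ℤ_[p][X])) = 2 * w := by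
    intro w; simp; norm_num
  obtain ⟨z, hz, -⟩ := hensels_lemma (p := p) (R := ℤ_[p]) (F := X ^ 2 - C (n : ℤ_[p]))
    (a := (s : ℤ_[p])) (by
      rw [e1, e2]
      have h3 : ‖((s ^ 2 - n : ℤ) : ℤ_[p])‖ < 1 := by
        rw [PadicInt.norm_intCast_lt_one_iff]
        exact h1
      have h4 : ‖((2 * s : ℤ) : ℤ_[p])‖ = 1 := by
        have h5 : ¬ ‖((2 * s : ℤ) : ℤ_[p])‖ < 1 := by
          rw [PadicInt.norm_intCast_lt_one_iff]
          exact h2
        exact le_antisymm (PadicInt.norm_le_one _) (not_lt.1 h5)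
      push_cast at h3 h4
      rw [h4]
      simpa using h3)
  rw [e1] at hz
  have h6 := congrArg (fun w : ℤ_[p] => (w : ℚ_[p])) (sub_eq_zero.1 hz)
  push_cast at h6
  exact ⟨z, by rw [← h6]; ring⟩

lemma padic_sq2 {n : ℤ} (hn : n % 8 = 1) : IsSquare (n : ℚ_[2]) := by
  have e1 : ∀ w : ℤ_[2], (aeval w) (X ^ 2 - C (n : ℤ_[2]) : ℤ_[2][X]) = w ^ 2 - n := by
    intro w; simp
  have e2 : ∀ w : ℤ_[2], (aeval w) (derivative (X ^ 2 - C (n : ℤ_[2]) : ℤ_[2][X])) = 2 * w := by
    intro w; simp; norm_num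
  obtain ⟨z, hz, -⟩ := hensels_lemma (p := 2) (R := ℤ_[2]) (F := X ^ 2 - C (n : ℤ_[2]))
    (a := 1) (by
      rw [e1, e2]
      have h4 : ‖(2 : ℤ_[2])‖ = 2⁻¹ := by
        have := PadicInt.norm_p (p := 2)
        exact_mod_cast this
      have h3 : ‖((1 - n : ℤ) : ℤ_[2])‖ ≤ ((2 : ℕ) : ℝ) ^ (-(3 : ℕ) : ℤ) := by
        rw [PadicInt.norm_int_le_pow_iff_dvd]
        push_cast
        omega
      push_cast at h3
      rw [one_pow, mul_one, h4]
      refine lt_of_le_of_lt h3 ?_
      norm_num)
  rw [e1] at hz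
  have h6 := congrArg (fun w : ℤ_[2] => (w : ℚ_[2])) (sub_eq_zero.1 hz)
  push_cast at h6
  exact ⟨z, by rw [← h6]; ring⟩


end

end Pool.Agent.U354.GZ
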